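import Mathlib

namespace Pool.Agent.Results.MP_baa74b_lc.Yes

open scoped ENNReal Classical

/-- memory-restricted black-box algorithm storing `m` pairs -/
structure Alg (S : Type) (m : ℕ) where
  init : PMF (Fin m → S)
  query : Multiset (S × ℝ) → PMF S
  remove : Multiset (S × ℝ) → PMF (S × ℝ)
  remove_mem : ∀ X, X ≠ 0 → ∀ p, remove X p ≠ 0 → p ∈ X

def Best {S : Type} (f : S → ℝ) (y : S) : Prop := ∀ s, f s ≤ f y

/-- probability that, from memory `X`, none of the next `n` rounds queries a maximiser -/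
noncomputable def miss {S : Type} {m : ℕ} (A : Alg S m) (f : S → ℝ) : ℕ → Multiset (S × ℝ) → ℝ≥0∞
  | 0, _ => 1
  | n + 1, X => ∑' y, A.query X y * if Best f y then 0 else
      ∑' p, A.remove ((y, f y) ::ₘ X) p * miss A f n (((y, f y) ::ₘ X).erase p)

/-- expected number of queries, as the sum over `t` of the probability that the first `t` queries
all miss the maximisers -/
noncomputable def time {S : Type} {m : ℕ} (A : Alg S m) (f : S → ℝ) : ℝ≥0∞ :=
  ∑' x, A.init x * ((∑ t : Fin m, if ∃ j < t, Best f (x j) then 0 else 1) +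
    if ∃ j, Best f (x j) then 0 else ∑' n, miss A f n (Finset.univ.val.map fun j => (x j, f (x j))))

noncomputable def C {S : Type} (m : ℕ) (F : Set (S → ℝ)) : ℝ≥0∞ := ⨅ A : Alg S m, ⨆ f ∈ F, time A f

theorem avg_le {α : Type} (P : PMF α) {g : α → ℝ≥0∞} {c : ℝ≥0∞} (h : ∀ y, g y ≤ c) :
    ∑' y, P y * g y ≤ c := by
  calc _ ≤ ∑' y, P y * c := by gcongr with y; exact h y
    _ = c := by rw [ENNReal.tsum_mul_right, P.tsum_coe, one_mul]

theorem le_avg {α : Type} (P : PMF α) {g : α → ℝ≥0∞} {c : ℝ≥0∞} (h : ∀ y, c ≤ g y) :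
    c ≤ ∑' y, P y * g y := by
  calc c = ∑' y, P y * c := by rw [ENNReal.tsum_mul_right, P.tsum_coe, one_mul]
    _ ≤ _ := by gcongr with y; exact h y

theorem miss_le {S : Type} {m : ℕ} (A : Alg S m) (f : S → ℝ) : ∀ n X, miss A f n X ≤ 1
  | 0, _ => le_rfl
  | n + 1, _ => avg_le _ fun y => by
    split_ifs
    exacts [zero_le_one, avg_le _ fun p => miss_le A f n _]

theorem miss_one {S : Type} {m : ℕ} (A : Alg S m) (f : S → ℝ) (o : S) (h : ∀ y, Best f y → y = o)
    (X) : 1 ≤ miss A f 1 X + A.query X o := by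
  have : A.query X o = ∑' y, A.query X y * if y = o then 1 else 0 := by
    rw [tsum_eq_single o] <;> simp +contextual
  rw [this, miss, ← ENNReal.tsum_add]
  simp only [← mul_add]
  refine le_avg _ fun y => ?_
  by_cases c : Best f y
  · simp [h y c]
  · rw [if_neg c]
    exact le_add_right (le_avg _ fun p => le_rfl)

section
variable {n N : ℕ} [NeZero N]

abbrev Sp (n N : ℕ) := Fin n ⊕ ZMod N

def f0 (a : Fin n → ZMod N) : Sp n N → ℝ := Sum.elim (fun i => (a i).val) fun _ => 0

def opt (a : Fin n → ZMod N) : Sp n N := Sum.inr (∑ i, a i)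

noncomputable def f1 (a : Fin n → ZMod N) (s : Sp n N) : ℝ := if s = opt a then N else f0 a s

theorem f0_lt (a : Fin n → ZMod N) (s) : f0 a s < N := by
  rcases s with i | g
  · exact Nat.cast_lt.2 (ZMod.val_lt _)
  · exact Nat.cast_pos.2 (NeZero.pos N)

theorem best (a : Fin n → ZMod N) (y) : Best (f1 a) y ↔ y = opt a := by
  refine ⟨fun h => by_contra fun c => ?_, ?_⟩
  · have := h (opt a)
    rw [f1, f1, if_pos rfl, if_neg c] at this
    exact (f0_lt a y).not_ge this
  · rintro rfl s
    rw [f1, f1, if_pos rfl]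
    split_ifs
    exacts [le_rfl, (f0_lt a s).le]

theorem shift (G : (Fin n → ZMod N) → ZMod N → ℝ≥0∞) (c : ℝ≥0∞) (i : Fin n)
    (h1 : ∀ a, ∑ g, G a g ≤ c) (h2 : ∀ a t, G (a + Pi.single i t) = G a) :
    N * ∑ a, G a (∑ j, a j) ≤ ∑ _ : Fin n → ZMod N, c := by
  have h3 : ∀ t : ZMod N, ∑ a, G a (∑ j, a j) = ∑ a, G a (∑ j, a j + t) := fun t => by
    rw [← Equiv.sum_comp (Equiv.addRight (Pi.single i t))]
    simp [h2, Finset.sum_add_distrib]
  calc _ = ∑ t : ZMod N, ∑ a, G a (∑ j, a j) := by simp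
    _ = ∑ a, ∑ t : ZMod N, G a (∑ j, a j + t) := by
      rw [Finset.sum_congr rfl fun t _ => h3 t, Finset.sum_comm]
    _ ≤ _ := Finset.sum_le_sum fun a _ => by
      rw [← Equiv.sum_comp (Equiv.addLeft (∑ j, a j)).symm]
      simpa using h1 a

def mem (a : Fin n → ZMod N) (Y : Multiset (Sp n N)) : Multiset (Sp n N × ℝ) :=
  Y.map fun s => (s, f0 a s)

theorem f0_shift (a : Fin n → ZMod N) (i t) (s) (h : s ≠ Sum.inl i) :
    f0 (a + Pi.single i t) s = f0 a s := by
  rcases s with j | g
  · have : j ≠ i := fun e => h (e ▸ rfl)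
    simp [f0, this]
  · rfl

theorem mem_shift (a : Fin n → ZMod N) (i t) (Y) (h : Sum.inl i ∉ Y) :
    mem (a + Pi.single i t) Y = mem a Y :=
  Multiset.map_congr rfl fun s hs => by rw [f0_shift a i t s fun e => h (e ▸ hs)]

omit [NeZero N] in
theorem exists_free (Y : Multiset (Sp n N)) (h : Y.card < n) : ∃ i, Sum.inl i ∉ Y := by
  by_contra hc
  push Not at hc
  have := Finset.card_le_card_of_injOn (s := Finset.univ) (t := Y.toFinset) Sum.inl
    (fun i _ => by simpa using hc i) Sum.inl_injective.injOn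
  have := Y.toFinset_card_le
  simp at *
  omega

theorem sum_inr (P : PMF (Sp n N)) : ∑ g, P (Sum.inr g) ≤ 1 := by
  rw [← P.tsum_coe, tsum_fintype, Fintype.sum_sum_type]
  exact le_add_self

theorem guess {m : ℕ} (A : Alg (Sp n N) m) (Y : Multiset (Sp n N)) (h : Y.card < n) :
    N * ∑ a, A.query (mem a Y) (opt a) ≤ ∑ _ : Fin n → ZMod N, 1 := by
  obtain ⟨i, hi⟩ := exists_free Y h
  exact shift (fun a g => A.query (mem a Y) (Sum.inr g)) 1 i (fun a => sum_inr _)
    fun a t => by rw [mem_shift a i t Y hi]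

noncomputable def G3 {m : ℕ} (A : Alg (Sp n N) m) (Y : Multiset (Sp n N)) (i : Fin n)
    (a : Fin n → ZMod N) (g : ZMod N) : ℝ≥0∞ :=
  ∑' y, A.query (mem a Y) y * if y = Sum.inl i then 0 else
    ∑' p, A.remove ((y, f0 a y) ::ₘ mem a Y) p *
      A.query (((y, f0 a y) ::ₘ mem a Y).erase p) (Sum.inr g)

theorem g3 {m : ℕ} (A : Alg (Sp n N) m) (Y : Multiset (Sp n N)) (i) (hi : Sum.inl i ∉ Y) :
    N * ∑ a, G3 A Y i a (∑ j, a j) ≤ ∑ _ : Fin n → ZMod N, 1 := by
  refine shift _ 1 i (fun a => ?_) fun a t => funext fun g => ?_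
  · simp only [G3]
    rw [← Summable.tsum_finsetSum fun _ _ => ENNReal.summable]
    simp only [← Finset.mul_sum]
    refine avg_le _ fun y => ?_
    split_ifs
    · simp
    rw [← Summable.tsum_finsetSum fun _ _ => ENNReal.summable]
    simp only [← Finset.mul_sum]
    exact avg_le _ fun p => sum_inr _
  · simp only [G3, mem_shift a i t Y hi]
    refine tsum_congr fun y => ?_
    split_ifs with c
    · rfl
    · rw [f0_shift a i t y c]

theorem two {m : ℕ} (A : Alg (Sp n N) m) (Y : Multiset (Sp n N)) (i) (a) :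
    1 ≤ miss A (f1 a) 2 (mem a Y) + (A.query (mem a Y) (opt a) + G3 A Y i a (∑ j, a j) +
      ∑ s ∈ (Sum.inl i ::ₘ Y).toFinset, A.query (mem a ((Sum.inl i ::ₘ Y).erase s)) (opt a)) := by
  set K := ∑ s ∈ (Sum.inl i ::ₘ Y).toFinset, A.query (mem a ((Sum.inl i ::ₘ Y).erase s)) (opt a)
    with hK
  have h1 : A.query (mem a Y) (opt a) =
      ∑' y, A.query (mem a Y) y * if y = opt a then 1 else 0 := by
    rw [tsum_eq_single (opt a)] <;> simp +contextual
  have h2 : K = ∑' y, A.query (mem a Y) y * K := by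
    rw [ENNReal.tsum_mul_right, PMF.tsum_coe, one_mul]
  rw [h1, h2, miss, G3]
  simp only [← ENNReal.tsum_add, ← mul_add]
  refine le_avg _ fun y => ?_
  by_cases c : y = opt a
  · rw [if_pos c]
    exact le_add_left (le_add_right le_self_add)
  rw [best, if_neg c, if_neg c, zero_add, f1, if_neg c]
  have h3 := le_avg (A.remove ((y, f0 a y) ::ₘ mem a Y)) fun p =>
    miss_one A (f1 a) _ (fun y => (best a y).1) (((y, f0 a y) ::ₘ mem a Y).erase p)
  simp only [mul_add, ENNReal.tsum_add] at h3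
  refine h3.trans (add_le_add (le_of_eq (tsum_congr fun p => by
    congr
    exact Subsingleton.elim _ _)) ?_)
  split_ifs with c2
  · subst c2
    rw [zero_add, ← one_mul K, ← PMF.tsum_coe (A.remove ((Sum.inl i, f0 a (Sum.inl i)) ::ₘ mem a Y)),
      ← ENNReal.tsum_mul_right]
    refine ENNReal.tsum_le_tsum fun p => ?_
    by_cases e : A.remove ((Sum.inl i, f0 a (Sum.inl i)) ::ₘ mem a Y) p = 0
    · simp [e]
    have := A.remove_mem _ (by simp) p e
    rw [mem, ← Multiset.map_cons (fun s => (s, f0 a s))] at this ⊢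
    obtain ⟨s, hs, rfl⟩ := Multiset.mem_map.1 this
    gcongr
    rw [← Multiset.map_erase_of_mem _ _ hs]
    exact Finset.single_le_sum (f := fun s => A.query (mem a ((Sum.inl i ::ₘ Y).erase s)) (opt a))
      (fun _ _ => zero_le) (Multiset.mem_toFinset.2 hs)
  · exact le_self_add

end

theorem lower (m N : ℕ) [NeZero N] (A : Alg (Sp (m + 1) N) m) (c : ℝ≥0∞)
    (h : ∀ a, time A (f1 a) ≤ c) : N * (m + 3 : ℝ≥0∞) ≤ N * c + (m + 3) * (2 * m + 3) := by
  let T : (Fin (m + 1) → ZMod N) → (Fin m → Sp (m + 1) N) → ℝ≥0∞ := fun a x =>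
    (∑ t : Fin m, if ∃ j < t, Best (f1 a) (x j) then 0 else 1) + if ∃ j, Best (f1 a) (x j) then 0
      else ∑' n, miss A (f1 a) n (Finset.univ.val.map fun j => (x j, f1 a (x j)))
  have key : ∀ x, ∑ _ : Fin (m + 1) → ZMod N, N * (m + 3 : ℝ≥0∞) ≤
      N * ∑ a, T a x + ∑ _ : Fin (m + 1) → ZMod N, (m + 3 : ℝ≥0∞) * (2 * m + 3) := by
    intro x
    let Y : Multiset (Sp (m + 1) N) := Finset.univ.val.map x
    have hY : Y.card = m := by simp [Y]
    obtain ⟨i, hi⟩ := exists_free Y (by omega)
    let H := fun a : Fin (m + 1) → ZMod N => (∑ j, if x j = opt a then 1 else 0) +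
      (A.query (mem a Y) (opt a) + G3 A Y i a (∑ j, a j) +
      ∑ s ∈ (Sum.inl i ::ₘ Y).toFinset, A.query (mem a ((Sum.inl i ::ₘ Y).erase s)) (opt a))
    have h1 : ∀ a, (m + 3 : ℝ≥0∞) ≤ T a x + (m + 3) * H a := by
      intro a
      by_cases c : ∃ j, x j = opt a
      · obtain ⟨j, hj⟩ := c
        refine le_add_left (le_mul_of_one_le_right' (le_add_right ?_))
        simpa [hj] using Finset.single_le_sum (f := fun j => if x j = opt a then (1 : ℝ≥0∞) else 0)
          (fun _ _ => zero_le) (Finset.mem_univ j)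
      have e : (Finset.univ.val.map fun j => (x j, f1 a (x j))) = mem a Y := by
        simp only [mem, Y, Multiset.map_map]
        exact Multiset.map_congr rfl fun j _ => by simp [f1, not_exists.1 c j]
      have h2 : (m + 3) * miss A (f1 a) 2 (mem a Y) ≤ T a x := by
        have h3 : miss A (f1 a) 2 (mem a Y) ≤ miss A (f1 a) 1 (mem a Y) := by
          simp only [miss]
          gcongr
          split_ifs
          · rfl
          · gcongr
            exact miss_le A _ 1 _
        have h4 := miss_le A (f1 a) 2 (mem a Y)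
        simp only [T, best, not_exists.1 c, and_false, exists_false, if_false, e]
        refine le_trans ?_ (add_le_add le_rfl (ENNReal.sum_le_tsum (Finset.range 3)))
        simp only [Finset.sum_range_succ, Finset.sum_range_zero, zero_add, Finset.sum_const,
          Finset.card_univ, Fintype.card_fin, nsmul_eq_mul]
        rw [add_mul, show (3 : ℝ≥0∞) = 1 + 1 + 1 by norm_num, add_mul, add_mul, one_mul]
        gcongr
        exact h4
      refine le_trans ?_ (add_le_add h2 le_rfl)
      rw [← mul_add]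
      exact le_mul_of_one_le_right' ((two A Y i a).trans (add_le_add le_rfl le_add_self))
    have h2 : N * ∑ a, H a ≤ ∑ _ : Fin (m + 1) → ZMod N, (2 * m + 3 : ℝ≥0∞) := by
      have k1 := shift (n := m + 1) (N := N) (fun _ g => ∑ j, if x j = Sum.inr g then 1 else 0) m i
        (fun _ => by
          rw [Finset.sum_comm]
          refine (Finset.sum_le_card_nsmul _ _ 1 fun j _ => ?_).trans (by simp)
          rcases x j with _ | _ <;> simp) fun _ _ => rfl
      have k2 := guess A Y (by omega)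
      have k3 := g3 A Y i hi
      have k4 : N * ∑ a, ∑ s ∈ (Sum.inl i ::ₘ Y).toFinset,
          A.query (mem a ((Sum.inl i ::ₘ Y).erase s)) (opt a) ≤
            ∑ _ : Fin (m + 1) → ZMod N, (m + 1 : ℝ≥0∞) := by
        rw [Finset.sum_comm, Finset.mul_sum]
        refine (Finset.sum_le_card_nsmul _ _ _ fun s hs => guess A _ ?_).trans ?_
        · rw [Multiset.card_erase_of_mem (Multiset.mem_toFinset.1 hs)]
          simp [hY]
        · have := (Sum.inl i ::ₘ Y).toFinset_card_le
          rw [Multiset.card_cons, hY] at this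
          rw [Finset.smul_sum]
          refine Finset.sum_le_sum fun _ _ => ?_
          rw [nsmul_eq_mul, mul_one]
          exact_mod_cast this
      simp only [H, Finset.sum_add_distrib, mul_add]
      refine (add_le_add k1 (add_le_add (add_le_add k2 k3) k4)).trans (le_of_eq ?_)
      simp only [← Finset.sum_add_distrib]
      exact Finset.sum_congr rfl fun _ _ => by ring
    rw [← Finset.mul_sum, ← Finset.mul_sum]
    calc _ ≤ N * ∑ a, (T a x + (m + 3) * H a) := 
          mul_le_mul_right (Finset.sum_le_sum fun a _ => h1 a) _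
      _ = N * ∑ a, T a x + (m + 3) * (N * ∑ a, H a) := by
        rw [Finset.sum_add_distrib, ← Finset.mul_sum]; ring
      _ ≤ _ := by gcongr
  have h1 := le_avg A.init key
  simp only [mul_add (A.init _), ENNReal.tsum_add] at h1
  have h2 : ∑' x, A.init x * (N * ∑ a, T a x) ≤ ∑ _ : Fin (m + 1) → ZMod N, N * c := by
    simp only [mul_left_comm, Finset.mul_sum]
    rw [Summable.tsum_finsetSum fun _ _ => ENNReal.summable]
    refine Finset.sum_le_sum fun a _ => ?_
    rw [ENNReal.tsum_mul_left]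
    gcongr
    exact h a
  have h3 := h1.trans (add_le_add h2 (avg_le _ fun _ => le_rfl))
  rw [← Finset.sum_add_distrib] at h3
  simp only [Finset.sum_const, nsmul_eq_mul] at h3
  exact (ENNReal.mul_le_mul_iff_right (Nat.cast_ne_zero.2 Fintype.card_ne_zero) (by simp)).1 h3

theorem upper (n N : ℕ) [NeZero N] : C n (Set.range (f1 (n := n) (N := N))) ≤ n + 1 := by
  let A : Alg (Sp n N) n :=
    { init := PMF.pure Sum.inl
      query := fun X => PMF.pure (Sum.inr (X.map fun p => (⌊p.2⌋₊ : ZMod N)).sum)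
      remove := fun X => PMF.pure (if h : ∃ p, p ∈ X then h.choose else (Sum.inr 0, 0))
      remove_mem := fun X hX p hp => by
        have h := Multiset.exists_mem_of_ne_zero hX
        rw [dif_pos h] at hp
        simp only [PMF.pure_apply, ne_eq, ite_eq_right_iff, one_ne_zero, imp_false, not_not] at hp
        exact hp ▸ h.choose_spec }
  refine iInf_le_of_le A (iSup₂_le ?_)
  rintro _ ⟨a, rfl⟩
  rw [time, tsum_eq_single Sum.inl fun x hx => by simp [A, hx]]
  have h1 : A.query (Finset.univ.val.map fun j => (Sum.inl j, f1 a (Sum.inl j))) =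
      PMF.pure (opt a) := by
    simp only [A, f1, f0, opt, Finset.sum, Multiset.map_map, Function.comp_def, reduceCtorEq,
      if_false, Sum.elim_inl, Nat.floor_natCast, ZMod.natCast_zmod_val]
  refine (mul_le_of_le_one_left' (PMF.coe_le_one _ _)).trans (add_le_add ?_ ?_)
  · refine (Finset.sum_le_card_nsmul _ _ 1 fun j _ => ?_).trans (by simp)
    split_ifs <;> simp
  · split_ifs
    · simp
    rw [tsum_eq_single 0]
    · rfl
    intro k hk
    obtain ⟨k, rfl⟩ := Nat.exists_eq_succ_of_ne_zero hk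
    rw [miss, h1, ENNReal.tsum_eq_zero]
    intro y
    by_cases c : y = opt a <;> simp [best, c]

theorem result (m : ℕ) : ∃ (S : Type) (_ : Finite S) (F : Set (S → ℝ)), C (m + 1) F < C m F := by
  have : NeZero (2 * ((m + 3) * (2 * m + 3))) := ⟨by positivity⟩
  refine ⟨Sp (m + 1) (2 * ((m + 3) * (2 * m + 3))), inferInstance, _,
    (upper _ _).trans_lt (lt_of_lt_of_le (b := (m + 2 + 2⁻¹ : ℝ≥0∞)) ?_ (le_iInf fun A => ?_))⟩
  · push_cast
    rw [add_assoc (m : ℝ≥0∞), one_add_one_eq_two]
    exact ENNReal.lt_add_right (by simp) (by simp)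
  · have := lower m _ A _ fun a => le_iSup₂_of_le (f := fun f (_ : f ∈ Set.range f1) => time A f)
      (f1 a) ⟨a, rfl⟩ le_rfl
    generalize (⨆ f ∈ Set.range f1, time A f) = c at this
    push_cast at this
    have h2 : (2 : ℝ≥0∞) * 2⁻¹ = 1 := ENNReal.mul_inv_cancel (by simp) (by simp)
    set K : ℝ≥0∞ := (m + 3) * (2 * m + 3) with hK
    have h3 : K ≠ ⊤ := by rw [hK]; finiteness
    have h4 : 2 * K * (m + 3) = 2 * K * (m + 2 + 2⁻¹) + K := by
      calc _ = 2 * K * (m + 2) + K * (2 * 2⁻¹) + K := by rw [h2]; ring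
        _ = _ := by ring
    rw [h4, ENNReal.add_le_add_iff_right h3] at this
    exact (ENNReal.mul_le_mul_iff_right (by simp [hK]) (by finiteness)).1 this

end Pool.Agent.Results.MP_baa74b_lc.Yes
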